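import Pool.Agent.Helper46.WP.St
import Pool.Agent.Helper97.W.PRE

/-! Lemma W in dimension `g + k`: prefix sums of the local entropies along most paths. -/

set_option autoImplicit false

namespace Pool.Agent.Helper46.WP

open Finset Pool.Agent.Helper69.RK Pool.Agent.Helper61.GL Pool.Agent.Helper46.WF Pool.Agent.Helper97.WF
open Pool.Agent.Helper92.W

section

variable {Ω α β γ : Type} [Fintype Ω] {p g : ℕ}

theorem prep_fr (ρ l : ℕ) (v : Fin p → ℝ) (i : Fin p) :
    cel ρ (frP l v) i = cel (l + ρ) v i - 2 ^ ρ * cel l v i := by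
  show ⌊(2 : ℝ) ^ ρ * Int.fract ((2 : ℝ) ^ l * v i)⌋ = ⌊(2 : ℝ) ^ (l + ρ) * v i⌋ -
    2 ^ ρ * ⌊(2 : ℝ) ^ l * v i⌋
  have e : (2 : ℝ) ^ ρ * Int.fract ((2 : ℝ) ^ l * v i) = (2 : ℝ) ^ (l + ρ) * v i -
      ((2 ^ ρ * ⌊(2 : ℝ) ^ l * v i⌋ : ℤ) : ℝ) := by
    unfold Int.fract
    push_cast
    ring
  rw [e, Int.floor_sub_intCast]

/-- the local entropy through the cells of `X` -/
theorem prep_eL_eq (μ : Ω → ℝ) (X : Ω → Fin p → ℝ) (ρ l : ℕ) (ω : Ω) :
    eLP μ X ρ l ω = Hh (cw μ (fun ω' => cel l (X ω')) ω) (fun ω' => cel (l + ρ) (X ω')) := by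
  unfold eLP lwP Hh
  apply ch_congr_left
  intro a b ha hb _
  have h1 : cel l (X a) = cel l (X b) :=
    (cw_ne_zero μ _ ha).1.trans (cw_ne_zero μ _ hb).1.symm
  constructor
  · intro h
    funext i
    have h2 : cel ρ (frP l (X a)) i = cel ρ (frP l (X b)) i := congrFun h i
    rw [prep_fr, prep_fr, h1] at h2
    linarith
  · intro h
    funext i
    show cel ρ (frP l (X a)) i = cel ρ (frP l (X b)) i
    rw [prep_fr, prep_fr, h1]
    have h3 : cel (l + ρ) (X a) = cel (l + ρ) (X b) := h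
    rw [h3]

theorem prep_eL_nonneg (μ : Ω → ℝ) (hμ : ∀ ω, 0 ≤ μ ω) (X : Ω → Fin p → ℝ) (ρ l : ℕ) (ω : Ω) :
    0 ≤ eLP μ X ρ l ω := Hh_nonneg _ (cw_nonneg μ _ hμ ω) _

omit [Fintype Ω] in
theorem prep_ref (μ : Ω → ℝ) (X : Ω → Fin p → ℝ) : Ref μ (fun l ω => cel l (X ω)) :=
  fun _ _ _ _ _ h => cel_refP h

omit [Fintype Ω] in
theorem prep_ref0 (μ : Ω → ℝ) (X : Ω → Fin p → ℝ) (e : Fin g → Fin p) : Ref μ (fun l ω => dgs l e (X ω)) := by
  intro l ω ω' _ _ h
  funext i
  exact den_fl_of l 1 _ _ (congrFun h i)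

theorem prep_sub (l R : ℕ) (x x' : ℝ) (h : fl l x = fl l x') :
    fl (l + R) x ∈ Ico (2 ^ R * fl l x') (2 ^ R * (fl l x' + 1)) :=
  pre_sub l R (fun _ => x) (fun _ => x') (by funext i; exact h) 0

theorem prep_card (R : ℕ) (k : ℤ) : (Ico (2 ^ R * k) (2 ^ R * (k + 1))).card = 2 ^ R := by
  rw [Int.card_Ico]
  have e : 2 ^ R * (k + 1) - 2 ^ R * k = 2 ^ R := by ring
  rw [e]
  norm_cast

theorem prep_Nb (μ : Ω → ℝ) (hμ : ∀ ω, 0 ≤ μ ω) (X : Ω → Fin p → ℝ) (R : ℕ) :
    Nb μ (fun l ω => cel l (X ω)) ((2 ^ R) ^ p) R := by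
  classical
  apply Nb_card μ hμ _ (prep_ref μ X)
  intro l ω _
  refine ⟨Fintype.piFinset (fun i => Ico (2 ^ R * cel l (X ω) i) (2 ^ R * (cel l (X ω) i + 1))), ?_, ?_⟩
  · rw [Fintype.card_piFinset, prod_congr rfl (fun i _ => prep_card R _), prod_const, card_univ, Fintype.card_fin]
    push_cast
    exact le_rfl
  · intro ω' _ h
    rw [Fintype.mem_piFinset]
    exact fun i => prep_sub l R (X ω' i) (X ω i) (congrFun h i)

theorem prep_Nb0 (μ : Ω → ℝ) (hμ : ∀ ω, 0 ≤ μ ω) (X : Ω → Fin p → ℝ) (e : Fin g → Fin p) (R : ℕ) :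
    Nb μ (fun l ω => dgs l e (X ω)) ((2 ^ R) ^ g) R := by
  classical
  apply Nb_card μ hμ _ (prep_ref0 μ X e)
  intro l ω _
  refine ⟨Fintype.piFinset (fun i => Ico (2 ^ R * fl l (X ω (e i))) (2 ^ R * (fl l (X ω (e i)) + 1))), ?_, ?_⟩
  · rw [Fintype.card_piFinset, prod_congr rfl (fun i _ => prep_card R _), prod_const, card_univ, Fintype.card_fin]
    push_cast
    exact le_rfl
  · intro ω' _ h
    rw [Fintype.mem_piFinset]
    exact fun i => prep_sub l R (X ω' (e i)) (X ω (e i)) (congrFun h i)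

theorem prep_Hh_step (μ : Ω → ℝ) (hμ : ∀ ω, 0 ≤ μ ω) (hm : ∑ ω, μ ω = 1) (c : ℕ → Ω → α) (R l : ℕ)
    (hN : Nb μ c ((2 ^ R) ^ g) R) : Hh μ (c (l + R)) ≤ Hh μ (c l) + g * R := by
  have h1 : ∑ ω, μ ω * ew μ c R l ω ≤ g * R := by
    calc _ ≤ ∑ ω, μ ω * (g * R) := by
          apply sum_le_sum
          intro ω _
          by_cases h0 : μ ω = 0
          · rw [h0, zero_mul, zero_mul]
          · have := pre_ew_le μ hμ c ((2 ^ R) ^ g) (by positivity) R hN l ω h0
            rw [Real.logb_pow, Real.logb_pow, Real.logb_self_eq_one (by norm_num), mul_one] at this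
            exact mul_le_mul_of_nonneg_left this (hμ ω)
      _ = g * R := by rw [← sum_mul, hm, one_mul]
  have h2 : ∑ ω, μ ω * ew μ c R l ω = ∑ ω, μ ω * sw μ c R l ω := sum_cm μ hμ (c l) (sw μ c R l)
  have h3 : ∑ ω, μ ω * sw μ c R l ω = Hh μ (c (l + R)) - Hh μ (c l) := by
    rw [pre_Hh μ hm, pre_Hh μ hm, ← sum_sub_distrib]
    exact sum_congr rfl (fun ω _ => by unfold sw; ring)
  linarith

end

theorem st_PREP : ST_LLN → ST_PREP := by
  classical
  intro _ p g ε hε ρ hρ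
  have hρ' : (1 : ℝ) ≤ ρ := by exact_mod_cast hρ
  have hg0 : (0 : ℝ) ≤ g := Nat.cast_nonneg g
  set δ : ℝ := ε / ((g + 3) * ρ) with hδ
  have hδ0 : 0 < δ := by positivity
  obtain ⟨J, hJ⟩ : ∃ J : ℕ, 2 / δ + 1 < J := exists_nat_gt _
  have hJ0 : (0 : ℝ) < J := by
    have : 0 < 2 / δ := by positivity
    linarith
  set η : ℝ := δ * ε / (4 * J) with hη
  have hη0 : 0 < η := by positivity
  set M : ℝ := (2 ^ (ρ + 7)) ^ p with hM
  have hM0 : 0 ≤ M := by positivity
  set C : ℝ := 2 * ρ * (5 * (2 ^ ρ) ^ p) with hC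
  have hC0 : 0 ≤ C := by positivity
  set K0 : ℝ := 7 * g + 1 with hK0
  have hK00 : 0 < K0 := by positivity
  obtain ⟨n0, hn0⟩ : ∃ n0 : ℕ, 2 / δ + 4 * M / (δ * ε) + 4 * J * K0 / (δ * ε) + 4 * J * C / (δ ^ 2 * ε) + 1 < n0 :=
    exists_nat_gt _
  refine ⟨η, hη0, n0, ?_⟩
  intro n hn Ω _ μ X e hμ hm hX hH
  have hm' : ∑ ω, μ ω = 1 := hm
  have hn' : (n0 : ℝ) ≤ n := by exact_mod_cast hn
  have a1 : 0 ≤ 2 / δ := by positivity
  have a2 : 0 ≤ 4 * M / (δ * ε) := by positivity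
  have a3 : 0 ≤ 4 * J * K0 / (δ * ε) := by positivity
  have a4 : 0 ≤ 4 * J * C / (δ ^ 2 * ε) := by positivity
  have hn1 : (1 : ℝ) ≤ n := by linarith
  have hnp : (0 : ℝ) < n := by linarith
  have b1 : 2 ≤ δ * n := by
    have : 2 / δ ≤ n := by linarith
    rw [div_le_iff₀ hδ0] at this
    linarith
  have b2 : M / (δ * n) ≤ ε / 4 := by
    have : 4 * M / (δ * ε) ≤ n := by linarith
    rw [div_le_iff₀ (by positivity)] at this
    rw [div_le_iff₀ (by positivity)]
    linarith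
  have b3 : J * (K0 / (δ * n)) ≤ ε / 4 := by
    have : 4 * J * K0 / (δ * ε) ≤ n := by linarith
    rw [div_le_iff₀ (by positivity)] at this
    rw [← mul_div_assoc, div_le_iff₀ (by positivity)]
    linarith
  have b4 : J * (n * C / (δ * n) ^ 2) ≤ ε / 4 := by
    have : 4 * J * C / (δ ^ 2 * ε) ≤ n := by linarith
    rw [div_le_iff₀ (by positivity)] at this
    rw [← mul_div_assoc, div_le_iff₀ (by positivity)]
    have h1 := mul_le_mul_of_nonneg_right this hnp.le
    have e1 : ε / 4 * (δ * n) ^ 2 = n * (δ ^ 2 * ε) * n / 4 := by ring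
    rw [e1]
    have e2 : J * (n * C) = 4 * J * C * n / 4 := by ring
    rw [e2]
    linarith
  have b5 : J * (η / δ) = ε / 4 := by
    rw [hη]
    field_simp
  -- the grid
  set q : ℕ := ⌊δ * n⌋₊ with hq
  have hq1 : (q : ℝ) ≤ δ * n := Nat.floor_le (by positivity)
  have hq2 : δ * n < q + 1 := Nat.lt_floor_add_one _
  have hq3 : 1 ≤ q := by
    have : (1 : ℝ) < q := by linarith
    have : (1 : ℕ) < q := by exact_mod_cast this
    omega
  have hq4 : δ / 2 * n ≤ q := by linarith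
  have hjJ : ∀ j : ℕ, j * q ≤ n → j < J := by
    intro j hj
    have h1 : (j : ℝ) * q ≤ n := by exact_mod_cast hj
    have h2 : (j : ℝ) * (δ / 2 * n) ≤ n := by
      have := mul_le_mul_of_nonneg_left hq4 (Nat.cast_nonneg j : (0 : ℝ) ≤ (j : ℝ))
      linarith
    have h3 : (j : ℝ) * (δ / 2) ≤ 1 := by
      have : (j : ℝ) * (δ / 2) * n ≤ 1 * n := by linarith
      exact le_of_mul_le_mul_right this hnp
    have h4 : (j : ℝ) ≤ 2 / δ := by
      rw [le_div_iff₀ hδ0]
      linarith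
    have h5 : (j : ℝ) < J := by linarith
    exact_mod_cast h5
  have hc := prep_ref μ X
  have hf := prep_ref0 μ X e
  have hNb := prep_Nb μ hμ X ρ
  -- first event
  have hA : Pw μ (fun ω => δ * n < Su μ (fun ω' => cel ρ (X ω')) ω) ≤ ε / 4 := by
    refine le_trans (pre_up μ hμ _ (Fintype.piFinset (fun _ : Fin p => Icc (-(32 * 2 ^ ρ) : ℤ) (32 * 2 ^ ρ)))
      ?_ (δ * n) (by positivity)) (le_trans ?_ b2)
    · intro ω _
      rw [Fintype.mem_piFinset]
      exact fun i => pre_range ρ (X ω i) (hX ω i)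
    · apply div_le_div_of_nonneg_right _ (by positivity)
      rw [Fintype.card_piFinset, prod_const, card_univ, Fintype.card_fin]
      push_cast
      exact pow_le_pow_left₀ (by positivity) (pre_card ρ) p
  -- the events at the grid points
  set E : ℕ → Ω → Prop := fun j ω => j * q ≤ n ∧
    (Su μ (fun ω' => dgs (j * q) e (X ω')) ω < g * ((j * q : ℕ) + 7) - δ * n ∨
      δ * n < |∑ l ∈ Ico 0 (j * q), dw μ (fun l ω => cel l (X ω)) ρ l ω|) with hE
  have hEj : ∀ j, j < J → Pw μ (E j) ≤ (K0 / (δ * n) + η / δ) + n * C / (δ * n) ^ 2 := by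
    intro j _
    by_cases hj : j * q ≤ n
    · refine le_trans (Pw_mono μ hμ (B := fun ω =>
        Su μ (fun ω' => dgs (j * q) e (X ω')) ω < (g * ((j * q : ℕ) + 7) : ℝ) - δ * n ∨
        δ * n < |∑ l ∈ Ico 0 (j * q), dw μ (fun l ω => cel l (X ω)) ρ l ω|) ?_)
        (le_trans (Pw_or μ hμ _ _) (add_le_add ?_ ?_))
      · intro ω _ h
        exact h.2
      · refine le_trans (pre_low μ hμ hm' _
          (Fintype.piFinset (fun _ : Fin g => Icc (-(32 * 2 ^ (j * q)) : ℤ) (32 * 2 ^ (j * q)))) ?_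
          (g * ((j * q : ℕ) + 7)) (7 * g + η * n) (δ * n) ?_ (by positivity) ?_) (le_of_eq ?_)
        · intro ω _
          rw [Fintype.mem_piFinset]
          exact fun i => pre_range _ _ (hX ω (e i))
        · rw [Fintype.card_piFinset, prod_const, card_univ, Fintype.card_fin]
          push_cast
          refine (pow_le_pow_left₀ (by positivity) (pre_card (j * q)) g).trans (le_of_eq ?_)
          rw [← pow_mul, ← Real.rpow_natCast]
          congr 1
          push_cast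
          ring
        · obtain ⟨R, hR⟩ := Nat.exists_eq_add_of_le hj
          have h1 := prep_Hh_step (g := g) μ hμ hm' (fun l ω => dgs l e (X ω)) R (j * q) (prep_Nb0 μ hμ X e R)
          rw [← hR] at h1
          have h2 : (n : ℝ) = (j * q : ℕ) + (R : ℝ) := by
            exact_mod_cast hR
          have h3 : ((g : ℝ) - η) * n ≤ Hh μ (fun ω => dgs n e (X ω)) := hH
          have h4 : Hh μ (fun ω => dgs n e (X ω)) ≤ Hh μ (fun ω => dgs (j * q) e (X ω)) + g * R := h1
          have h5 : ((g : ℝ) - η) * n = g * (j * q : ℕ) + g * R - η * n := by rw [h2]; ring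
          linarith
        · rw [hK0]
          field_simp
          ring
      · refine le_trans (cheb μ hμ hm' _ hc ((2 ^ ρ) ^ p) (by positivity) ρ hNb 0 (j * q) (δ * n) (by positivity)) ?_
        apply div_le_div_of_nonneg_right _ (by positivity)
        apply mul_le_mul_of_nonneg_right _ hC0
        rw [Nat.sub_zero]
        exact_mod_cast hj
    · refine le_trans (Pw_mono μ hμ (B := fun _ => False) ?_) ?_
      · intro ω _ h
        exact hj h.1
      · unfold Pw
        simp only [if_false, sum_const_zero]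
        positivity
  have hU := den_union μ hμ _ E J _ _ hA hEj
  refine le_trans (Pw_mono μ hμ ?_) (hU.trans ?_)
  · intro ω hω hbad
    by_contra hgood
    push Not at hgood
    obtain ⟨g1, g2⟩ := hgood
    obtain ⟨N, hN, hlt⟩ := hbad
    have hjn : N / q * q ≤ N := Nat.div_mul_le_self N q
    have hjn2 := Nat.lt_div_mul_add (show 0 < q from hq3) (a := N)
    have hj1 : N / q * q ≤ n := hjn.trans hN
    have g3 := g2 (N / q) (hjJ _ hj1)
    rw [hE] at g3
    simp only [not_and, not_or, not_lt] at g3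
    obtain ⟨g4, g5⟩ := g3 hj1
    generalize N / q * q = N' at *
    have eLe : ∀ l, eLP μ X ρ l ω = ew μ (fun l ω => cel l (X ω)) ρ l ω := by
      intro l
      rw [prep_eL_eq, pre_Hh_cw μ hμ _ _ ω hω]
      exact LH_eq_ew μ hμ (fun l ω => cel l (X ω)) hc ρ l ω
    have h1 : ∑ l ∈ range N', eLP μ X ρ l ω ≤ ∑ l ∈ range N, eLP μ X ρ l ω :=
      sum_le_sum_of_subset_of_nonneg (by intro l; simp only [mem_range]; omega)
        (fun l _ _ => prep_eL_nonneg μ hμ X ρ l ω)
    have h2 : ∑ l ∈ Ico 0 N', dw μ (fun l ω => cel l (X ω)) ρ l ω =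
        ∑ l ∈ Ico 0 N', (Su μ (fun ω' => cel (l + ρ) (X ω')) ω - Su μ (fun ω' => cel l (X ω')) ω) -
          ∑ l ∈ range N', eLP μ X ρ l ω := by
      rw [range_eq_Ico, ← sum_sub_distrib]
      apply sum_congr rfl
      intro l _
      rw [eLe]
      rfl
    have h3 := den_tele (fun l => Su μ (fun ω' => cel l (X ω')) ω) ρ 0 N' (Nat.zero_le _)
    simp only [Nat.zero_add] at h3
    rw [h3] at h2
    have h4 : ∑ i ∈ range ρ, (Su μ (fun ω' => cel N' (X ω')) ω - Su μ (fun ω' => cel ρ (X ω')) ω) ≤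
        ∑ i ∈ range ρ, (Su μ (fun ω' => cel (N' + i) (X ω')) ω - Su μ (fun ω' => cel i (X ω')) ω) := by
      apply sum_le_sum
      intro i hi
      rw [mem_range] at hi
      have k1 := Su_le μ hμ (fun l ω => cel l (X ω)) hc (Nat.le_add_right N' i) ω hω
      have k2 := Su_le μ hμ (fun l ω => cel l (X ω)) hc hi.le ω hω
      linarith
    rw [sum_const, card_range, nsmul_eq_mul] at h4
    have h5 : Su μ (fun ω' => dgs N' e (X ω')) ω ≤ Su μ (fun ω' => cel N' (X ω')) ω :=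
      Su_mono μ hμ _ _ ω hω (fun ω' _ h => by
        funext i
        exact congrFun h (e i))
    have h6 := (abs_le.mp g5).2
    have h7 : (N : ℝ) ≤ N' + q := by
      have : N ≤ N' + q := by omega
      exact_mod_cast this
    have h7' : (g : ℝ) * N ≤ g * N' + g * (δ * n) := by
      have := mul_le_mul_of_nonneg_left (h7.trans (add_le_add_right hq1 _)) hg0
      linarith
    have h8 : (ρ : ℝ) * (g * N - (g + 2) * (δ * n)) ≤
        ρ * (Su μ (fun ω' => cel N' (X ω')) ω - Su μ (fun ω' => cel ρ (X ω')) ω) := by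
      apply mul_le_mul_of_nonneg_left _ (by linarith)
      have : (0 : ℝ) ≤ 7 * g := by positivity
      linarith
    have h9 : (ρ : ℝ) * ((g + 2) * (δ * n)) + δ * n ≤ ε * n := by
      have : (g + 3) * ρ * δ = ε := by
        rw [hδ]
        field_simp
      have k : δ * n ≤ ρ * (δ * n) := by
        have : 0 < δ * n := by positivity
        nlinarith
      have k2 : (g + 3) * (ρ * (δ * n)) = ε * n := by
        rw [← this]
        ring
      linarith
    have h10 : (ρ : ℝ) * (g * N - (g + 2) * (δ * n)) = g * ρ * N - ρ * ((g + 2) * (δ * n)) := by ring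
    linarith
  · have e : (J : ℝ) * ((K0 / (δ * n) + η / δ) + n * C / (δ * n) ^ 2) =
        J * (K0 / (δ * n)) + J * (η / δ) + J * (n * C / (δ * n) ^ 2) := by ring
    rw [e]
    linarith

end Pool.Agent.Helper46.WP
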